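import Pool.Agent.U575.MD.Brg

/-!
# The multiple Dirichlet series of quadratic L-functions: a criterion for Q1, moments, the Lindelöf hypothesis

The objects are those of the problem (`Pool.Agent.Q48.MDS.Defs`, `Pool.Agent.Q48.MDS.Tube`): the positive fundamental
discriminants `FundDisc d`, the Kronecker symbol `kron d n`, the Dirichlet series `Lchi d s = L(s, χ_d)`, the series
`A k M z = A_M(s_1, …, s_k; w)`, the function `F k M z = F_M(s_1, …, s_k; w)`; the variables are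
`z = (w, s_1, …, s_k) : Fin (k + 1) → ℂ`. `ContinuesTo k M p` says that `F_M` extends holomorphically from the region
where all the real parts are greater than `1` to a tube domain containing the real point `p`, with polynomial bounds in
vertical strips. Q1 is `∀ k M ≥ 1, ContinuesTo k M (center k)`, `center k = (1, 1/2, …, 1/2)`.

* For `k ≥ 2` the point `(b, 1/2, …, 1/2)` is reached if and only if some point `p` with `1/2 ≤ s_j < 5/4` and
  `w + (1/2) ∑_j (s_j - 1/2) ≤ b` is reached. So Q1 for `(k, M)` is equivalent to continuation to one point of the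
  half-space `w + (1/2) ∑_j (s_j - 1/2) ≤ 1`; for instance to a point `s_j = 1/2 + x`, `w = 1 - kx/2` with
  `0 < x < 3/4`, to the left of the polar hyperplanes `w = 1 - |J| x` with `|J| < k/2` only. And Q1 is equivalent to
  this for `M = 1` and infinitely many `k`.
* Up to `ε`, continuation for one even order `k = 2m` is equivalent to a bound for the `2m`-th moment on the critical
  line, and continuation for all orders to a pointwise bound; for `θ = 0` this is the Lindelöf hypothesis in the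
  conductor aspect, with polynomial dependence on `t`.

Proof: Bochner's tube theorem with polynomial bounds; the functional equations for an even number of variables (the
root numbers are `±1`), for which the centre is the fixed point; positivity of the coefficients
`|L(s, χ)|^{2m} = L(s, χ)^m L(s̄, χ)^m`, extracted by a Gaussian kernel to the right of the polar hyperplanes; in the
other direction convexity between the region of absolute convergence given by the moment bound and the region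
`w > 1/2`, `s_j > 3/2`, where the series is continued by averages of `χ_d(n)`.
-/

set_option autoImplicit false

open Complex Set Filter Topology MeasureTheory
open Pool.Agent.Q48.MDS (FundDisc kron Lchi ContinuesTo center)

namespace Pool.Agent.Results.MP_fed7ff_nt.HalfSpaceCriterion

noncomputable section

/-- The `L`-function `L(s, χ_d)` on the whole plane: the `L`-function of the function `n ↦ (d/n)` of period `d`. -/
def L (d : ℕ) (s : ℂ) : ℂ :=
  if h : d ≠ 0 then haveI : NeZero d := ⟨h⟩; ZMod.LFunction (fun a : ZMod d => ((kron d (a.val + d) : ℤ) : ℂ)) s else 0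

/-- The diagonal point `w = w₀`, `s_1 = … = s_k = σ₀`. -/
def pt (k : ℕ) (w₀ σ₀ : ℝ) : Fin (k + 1) → ℝ := Fin.cons w₀ fun _ => σ₀

/-- `F_M` continues, in the sense of `ContinuesTo`, to some point `p` with `1/2 ≤ s_j < 5/4` for all `j` and
`w + (1/2) ∑_j (s_j - 1/2) ≤ b`. -/
def Reaches (k M : ℕ) (b : ℝ) : Prop :=
  ∃ p : Fin (k + 1) → ℝ, (∀ j : Fin k, 1 / 2 ≤ p j.succ ∧ p j.succ < 5 / 4) ∧
    p 0 + 1 / 2 * ∑ j : Fin k, (p j.succ - 1 / 2) ≤ b ∧ ContinuesTo k M p

/-- `L(1/2 + it, χ_d) ≪ d^{θ+ε} (1 + |t|)^{O_ε(1)}` for every `ε > 0`. -/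
def Growth (θ : ℝ) : Prop := ∀ ε : ℝ, 0 < ε → ∃ (C : ℝ) (N : ℕ), ∀ d : ℕ, 2 ≤ d → FundDisc d → ∀ t : ℝ,
  ‖L d (1 / 2 + t * I)‖ ≤ C * (d : ℝ) ^ (θ + ε) * (1 + |t|) ^ N

open Classical in
/-- `∑_{2 ≤ d < X} |L(1/2 + it, χ_d)|^n ≪ X^{a+ε} (1 + |t|)^{O_ε(1)}` for every `ε > 0`. -/
def MomentBound (n : ℕ) (a : ℝ) : Prop := ∀ ε : ℝ, 0 < ε → ∃ (C : ℝ) (N : ℕ), ∀ X t : ℝ, 1 ≤ X →
  ∑ d ∈ (Finset.Ico 2 ⌈X⌉₊).filter FundDisc, ‖L d (1 / 2 + t * I)‖ ^ n ≤ C * X ^ (a + ε) * (1 + |t|) ^ N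

/-! ### The translation -/

open Pool.Agent.N879.QM Pool.Agent.U575.NC Pool.Agent.U575.MD

lemma L_eq {d : ℕ} (hd : Is 1 d) (s : ℂ) : L d s = LL 1 d s := by
  have hd0 : d ≠ 0 := by have := hd.1; omega
  have hNZ : NeZero d := ⟨hd0⟩
  unfold L LL DirichletCharacter.LFunction
  rw [dif_pos hd0, dif_pos hd0]
  congr 1
  funext a
  rw [← (cls hd.1).2 hd (a.val + d) (by omega)]
  unfold vl
  rw [Nat.cast_add, ZMod.natCast_self, add_zero, ZMod.natCast_zmod_val]

lemma MB_iff (n : ℕ) (a : ℝ) : MomentBound n a ↔ MB n a := by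
  classical
  have e : ∀ X t : ℝ, ∑ d ∈ (Finset.Ico 2 ⌈X⌉₊).filter FundDisc, ‖L d (1 / 2 + t * I)‖ ^ n =
      ∑ q ∈ Q 1 X, ‖LL 1 q (1 / 2 + t * I)‖ ^ n := by
    intro X t
    have h1 : (Finset.Ico 2 ⌈X⌉₊).filter FundDisc = Q 1 X := by
      unfold Q
      refine Finset.filter_congr fun d hd => ?_
      exact ((cls (Finset.mem_Ico.1 hd).1).1).symm
    rw [h1]
    exact Finset.sum_congr rfl fun d hd => by rw [L_eq (mem_Q hd).2.2]
  unfold MomentBound MB
  simp only [e]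
  constructor
  · intro h ε hε
    obtain ⟨C, N, hb⟩ := h ε hε
    refine ⟨|C| + 1, N, by positivity, fun X t hX => (hb X t hX).trans ?_⟩
    refine mul_le_mul_of_nonneg_right (mul_le_mul_of_nonneg_right ?_ (by positivity)) (by positivity)
    linarith [le_abs_self C]
  · intro h ε hε
    obtain ⟨C, N, -, hb⟩ := h ε hε
    exact ⟨C, N, hb⟩

lemma Growth_iff (θ : ℝ) : Growth θ ↔ GrL θ := by
  unfold Growth GrL
  constructor
  · intro h ε hε
    obtain ⟨C, N, hb⟩ := h ε hε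
    refine ⟨|C| + 1, N, by positivity, fun q hq t => ?_⟩
    have h1 := hb q hq.1 ((cls hq.1).1.1 hq) t
    rw [L_eq hq] at h1
    refine h1.trans ?_
    refine mul_le_mul_of_nonneg_right (mul_le_mul_of_nonneg_right ?_ (by positivity)) (by positivity)
    linarith [le_abs_self C]
  · intro h ε hε
    obtain ⟨C, N, -, hb⟩ := h ε hε
    refine ⟨C, N, fun d hd hF t => ?_⟩
    have hI := (cls hd).1.2 hF
    rw [L_eq hI]
    exact hb d hI t

lemma Reaches_iff {k M : ℕ} (hM : 1 ≤ M) (b : ℝ) : Reaches k M b ↔ Reach k M b := by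
  unfold Reaches Reach
  simp only [CT_bridge hM]

/-- **The main result.** -/
theorem result :
    -- `L d` is entire and continues the Dirichlet series
    (∀ d : ℕ, 2 ≤ d → FundDisc d → Differentiable ℂ (L d) ∧ ∀ s : ℂ, 1 < s.re → L d s = Lchi d s) ∧
    -- Q1 for `(k, M)` (the case `b = 1`): it is enough to continue to one point of height at most `1`
    (∀ (k M : ℕ) (b : ℝ), 2 ≤ k → 1 ≤ M → (ContinuesTo k M (pt k b (1 / 2)) ↔ Reaches k M b)) ∧
    -- Q1: it is enough to do this for `M = 1` and infinitely many `k`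
    ((∀ k M : ℕ, 1 ≤ k → 1 ≤ M → ContinuesTo k M (center k)) ↔ ∀ K : ℕ, ∃ k : ℕ, K ≤ k ∧ Reaches k 1 1) ∧
    -- each even order: continuation is equivalent to a bound for one moment
    (∀ (m : ℕ) (a : ℝ), 1 ≤ m → 1 ≤ a → List.TFAE [
      MomentBound (2 * m) a,
      ∀ k M : ℕ, 1 ≤ k → k ≤ 2 * m → 1 ≤ M → ∀ ε : ℝ, 0 < ε → ContinuesTo k M (pt k a (1 / 2 + ε)),
      ∃ k : ℕ, 2 * m ≤ k ∧ ∀ ε : ℝ, 0 < ε → Reaches k 1 (a + ε)]) ∧
    -- all orders: continuation is equivalent to a pointwise bound (`θ = 0`: the Lindelöf hypothesis)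
    (∀ θ : ℝ, 0 ≤ θ → List.TFAE [
      Growth θ,
      ∀ k M : ℕ, 1 ≤ k → 1 ≤ M → ∀ ε : ℝ, 0 < ε → ContinuesTo k M (pt k (1 + k * θ) (1 / 2 + ε)),
      ∀ ε : ℝ, 0 < ε → ∀ K : ℕ, ∃ k : ℕ, K ≤ k ∧ Reaches k 1 (k * (θ + ε))]) ∧
    -- what continuation for a single `k` gives (Q1 for `M = 1` and one `k`: `b = 1`)
    (∀ (k m : ℕ) (b : ℝ), 1 ≤ m → 2 * m ≤ k → 1 ≤ b → Reaches k 1 b → MomentBound (2 * m) b ∧ Growth (b / (2 * m))) ∧
    -- Q1 implies the Lindelöf hypothesis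
    ((∀ k M : ℕ, 1 ≤ k → 1 ≤ M → ContinuesTo k M (center k)) → Growth 0) := by
  have hR1 : ∀ k b, Reaches k 1 b ↔ Reach k 1 b := fun k b => Reaches_iff le_rfl b
  have hcrit : ∀ (k M : ℕ) (b : ℝ), 2 ≤ k → 1 ≤ M → (ContinuesTo k M (pt k b (1 / 2)) ↔ Reaches k M b) :=
    fun k M b hk hM => by
      rw [CT_bridge hM, Reaches_iff hM]
      exact reach_iff hk
  refine ⟨fun d hd hF => ?_, hcrit, ?_, fun m a hm ha => ?_, fun θ hθ => ?_, fun k m b hm hk hb h => ?_, fun h => ?_⟩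
  · have hI := (cls hd).1.2 hF
    refine ⟨?_, fun s hs => ?_⟩
    · have : L d = LL 1 d := funext fun s => L_eq hI s
      rw [this]
      exact LL_diff hI
    · rw [L_eq hI, Lchi_eq hI hs]
  · refine Pool.Agent.Q48.MDS.q1_iff.trans ⟨fun h K => ?_, fun h K => ?_⟩
    · obtain ⟨k, hk, hc⟩ := h (max K 2)
      exact ⟨k, (le_max_left _ _).trans hk, (hcrit k 1 1 ((le_max_right _ _).trans hk) le_rfl).1 hc⟩
    · obtain ⟨k, hk, hr⟩ := h (max K 2)
      exact ⟨k, (le_max_left _ _).trans hk, (hcrit k 1 1 ((le_max_right _ _).trans hk) le_rfl).2 hr⟩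
  · have h := tfae_MB' hm ha
    simp only [← hR1, ← MB_iff] at h
    have e : (∀ k M : ℕ, 1 ≤ k → k ≤ 2 * m → 1 ≤ M → ∀ ε : ℝ, 0 < ε → ContinuesTo k M (pt k a (1 / 2 + ε))) ↔
        ∀ k M : ℕ, 1 ≤ k → k ≤ 2 * m → 1 ≤ M → ∀ ε : ℝ, 0 < ε → CT k M (Fin.cons a fun _ => 1 / 2 + ε) :=
      ⟨fun h k M h1 h2 h3 ε hε => (CT_bridge h3 _).1 (h k M h1 h2 h3 ε hε),
        fun h k M h1 h2 h3 ε hε => (CT_bridge h3 _).2 (h k M h1 h2 h3 ε hε)⟩
    rw [e]
    exact h
  · have h := tfae_GrL' hθ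
    simp only [← hR1, ← Growth_iff] at h
    have e : (∀ k M : ℕ, 1 ≤ k → 1 ≤ M → ∀ ε : ℝ, 0 < ε → ContinuesTo k M (pt k (1 + k * θ) (1 / 2 + ε))) ↔
        ∀ k M : ℕ, 1 ≤ k → 1 ≤ M → ∀ ε : ℝ, 0 < ε → CT k M (Fin.cons (1 + k * θ) fun _ => 1 / 2 + ε) :=
      ⟨fun h k M h1 h3 ε hε => (CT_bridge h3 _).1 (h k M h1 h3 ε hε),
        fun h k M h1 h3 ε hε => (CT_bridge h3 _).2 (h k M h1 h3 ε hε)⟩
    rw [e]
    exact h
  · rw [MB_iff, Growth_iff]
    exact GrL_of_reach hm hk hb ((hR1 k b).1 h)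
  · rw [Growth_iff]
    refine ((tfae_GrL' le_rfl).out 2 0).1 fun ε hε K => ?_
    have hc := h (max (max K 2) ⌈1 / ε⌉₊) 1 (by
      have := le_max_right K 2
      have := le_max_left (max K 2) ⌈1 / ε⌉₊
      omega) le_rfl
    set k : ℕ := max (max K 2) ⌈1 / ε⌉₊ with hk
    have hk1 : max K 2 ≤ k := le_max_left _ _
    have hk2 : 2 ≤ k := (le_max_right _ _).trans hk1
    have h1 : 1 / ε ≤ k := (Nat.le_ceil _).trans (by exact_mod_cast le_max_right (max K 2) ⌈1 / ε⌉₊)
    rw [div_le_iff₀ hε] at h1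
    refine ⟨k, (le_max_left _ _).trans hk1, ?_⟩
    rw [← reach_iff hk2]
    exact up_cons ((CT_bridge le_rfl _).1 hc) (by linarith) le_rfl

end

end Pool.Agent.Results.MP_fed7ff_nt.HalfSpaceCriterion
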