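import Pool.Agent.U575.MD.Ipl

/-!
# The number of variables of the multiple Dirichlet series: convexity of the abscissa of continuation

The objects are those of the problem (`Pool.Agent.Q48.MDS.Defs`): `F k M z = F_M(s_1, …, s_k; w)` and
`ContinuesTo k M p` (holomorphic continuation to a tube domain containing the real point `p`, with polynomial bounds
in vertical strips); the variables are `z = (w, s_1, …, s_k)`. Let `abscissa k` be the infimum of the `b ≥ 1` such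
that for all `M ≥ 1` and `ε > 0` the function `F_M` in `k` variables continues to `w = b`, `s_j = 1/2 + ε`. Q1 says a
little more than `abscissa k = 1` for all `k`.

* The infimum is attained, and for `b ≥ 1` it is enough to continue, for `M = 1` and ONE number `k ≥ 2m` of variables,
  to points with `1/2 ≤ s_j < 5/4` and `w + (1/2) ∑_j (s_j - 1/2) ≤ b + ε`, for all `ε > 0`.
* `abscissa (2m)` is a convex function of `m` with the value `1` at `m = 0`, and `abscissa (2m) / m` does not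
  increase. So the continuation for one even number of variables gives one for every other number of variables, fewer
  or more.
* If `θ` is the exponent of growth of `L(1/2 + it, χ_d)` in `d` then `2mθ ≤ abscissa (2m) ≤ 1 + 2mθ`.
-/

set_option autoImplicit false

open Complex Set Filter Topology MeasureTheory
open Pool.Agent.Q48.MDS (FundDisc kron Lchi ContinuesTo center)

namespace Pool.Agent.Results.MP_fed7ff_nt.NumberOfVariables

noncomputable section

/-- The `L`-function `L(s, χ_d)` on the whole plane: the `L`-function of the function `n ↦ (d/n)` of period `d`. -/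
def L (d : ℕ) (s : ℂ) : ℂ :=
  if h : d ≠ 0 then haveI : NeZero d := ⟨h⟩; ZMod.LFunction (fun a : ZMod d => ((kron d (a.val + d) : ℤ) : ℂ)) s else 0

/-- The diagonal point `w = w₀`, `s_1 = … = s_k = σ₀`. -/
def pt (k : ℕ) (w₀ σ₀ : ℝ) : Fin (k + 1) → ℝ := Fin.cons w₀ fun _ => σ₀

/-- `F_M` continues, in the sense of `ContinuesTo`, to some point `p` with `1/2 ≤ s_j < 5/4` for all `j` and
`w + (1/2) ∑_j (s_j - 1/2) ≤ b`. -/
def Reaches (k M : ℕ) (b : ℝ) : Prop :=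
  ∃ p : Fin (k + 1) → ℝ, (∀ j : Fin k, 1 / 2 ≤ p j.succ ∧ p j.succ < 5 / 4) ∧
    p 0 + 1 / 2 * ∑ j : Fin k, (p j.succ - 1 / 2) ≤ b ∧ ContinuesTo k M p

/-- For all `M ≥ 1` and `ε > 0`, `F_M` in `k` variables continues to `w = b`, `s_j = 1/2 + ε`. -/
def Near (k : ℕ) (b : ℝ) : Prop := ∀ M : ℕ, 1 ≤ M → ∀ ε : ℝ, 0 < ε → ContinuesTo k M (pt k b (1 / 2 + ε))

/-- The infimum of the `b ≥ 1` such that `F_M` in `k` variables continues to `w = b`, `s_j = 1/2 + ε`, for all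
`M ≥ 1` and `ε > 0`. -/
def abscissa (k : ℕ) : ℝ := sInf {b : ℝ | 1 ≤ b ∧ Near k b}

/-- `L(1/2 + it, χ_d) ≪ d^{θ+ε} (1 + |t|)^{O_ε(1)}` for every `ε > 0`. -/
def Growth (θ : ℝ) : Prop := ∀ ε : ℝ, 0 < ε → ∃ (C : ℝ) (N : ℕ), ∀ d : ℕ, 2 ≤ d → FundDisc d → ∀ t : ℝ,
  ‖L d (1 / 2 + t * I)‖ ≤ C * (d : ℝ) ^ (θ + ε) * (1 + |t|) ^ N

/-- The exponent of growth on the critical line; the Lindelöf hypothesis says that it is `0`. -/
def exponent : ℝ := sInf {θ : ℝ | 0 ≤ θ ∧ Growth θ}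

/-! ### The translation -/

open Pool.Agent.N879.QM Pool.Agent.U575.NC Pool.Agent.U575.MD

lemma L_eq {d : ℕ} (hd : Is 1 d) (s : ℂ) : L d s = LL 1 d s := by
  have hd0 : d ≠ 0 := by have := hd.1; omega
  have hNZ : NeZero d := ⟨hd0⟩
  unfold L LL DirichletCharacter.LFunction
  rw [dif_pos hd0, dif_pos hd0]
  congr 1
  funext a
  rw [← (cls hd.1).2 hd (a.val + d) (by omega)]
  unfold vl
  rw [Nat.cast_add, ZMod.natCast_self, add_zero, ZMod.natCast_zmod_val]

lemma Growth_iff (θ : ℝ) : Growth θ ↔ GrL θ := by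
  unfold Growth GrL
  constructor
  · intro h ε hε
    obtain ⟨C, N, hb⟩ := h ε hε
    refine ⟨|C| + 1, N, by positivity, fun q hq t => ?_⟩
    have h1 := hb q hq.1 ((cls hq.1).1.1 hq) t
    rw [L_eq hq] at h1
    refine h1.trans ?_
    refine mul_le_mul_of_nonneg_right (mul_le_mul_of_nonneg_right ?_ (by positivity)) (by positivity)
    linarith [le_abs_self C]
  · intro h ε hε
    obtain ⟨C, N, -, hb⟩ := h ε hε
    refine ⟨C, N, fun d hd hF t => ?_⟩
    have hI := (cls hd).1.2 hF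
    rw [L_eq hI]
    exact hb d hI t

lemma Reaches_iff {k M : ℕ} (hM : 1 ≤ M) (b : ℝ) : Reaches k M b ↔ Reach k M b := by
  unfold Reaches Reach
  simp only [CT_bridge hM]

/-- fewer variables -/
lemma Near_of_MB {m k : ℕ} (hm : 1 ≤ m) (hk1 : 1 ≤ k) (hk : k ≤ 2 * m) {b : ℝ} (hb : 1 ≤ b) (h : MB (2 * m) b) :
    Near k b := by
  have key : MB (2 * m) b ↔
      ∀ k M : ℕ, 1 ≤ k → k ≤ 2 * m → 1 ≤ M → ∀ ε : ℝ, 0 < ε → CT k M (Fin.cons b fun _ => 1 / 2 + ε) :=
    (tfae_MB' hm hb).out 0 1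
  exact fun M hM ε hε => (CT_bridge hM _).2 (key.1 h k M hk1 hk hM ε hε)

lemma Near_iff {m : ℕ} (hm : 1 ≤ m) {b : ℝ} (hb : 1 ≤ b) : Near (2 * m) b ↔ MB (2 * m) b := by
  constructor
  · intro h
    exact MB_of_CT le_rfl hb fun ε hε => up_cons ((CT_bridge le_rfl _).1 (h 1 le_rfl ε hε)) (by linarith) le_rfl
  · intro h
    exact Near_of_MB hm (by omega) le_rfl hb h

lemma reach_MB {m : ℕ} (hm : 1 ≤ m) {b : ℝ} (hb : 1 ≤ b) : MB (2 * m) b ↔
    ∃ k : ℕ, 2 * m ≤ k ∧ ∀ ε : ℝ, 0 < ε → Reaches k 1 (b + ε) := by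
  have key : MB (2 * m) b ↔ ∃ k : ℕ, 2 * m ≤ k ∧ ∀ ε : ℝ, 0 < ε → Reach k 1 (b + ε) := (tfae_MB' hm hb).out 0 2
  rw [key]
  simp only [fun k b => Reaches_iff (k := k) (M := 1) le_rfl b]

lemma GrL_one : GrL 1 := by
  obtain ⟨G, hG1, hG⟩ := growth
  intro ε hε
  refine ⟨G, 1, by linarith, fun q hq t => ?_⟩
  have h1 := hG 1 q hq (1 / 2 + t * I) (by simp; norm_num)
  have him : (1 / 2 + (t : ℂ) * I).im = t := by simp
  rw [him] at h1
  have hq1 : (1 : ℝ) ≤ q := by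
    have := hq.1
    exact_mod_cast (by omega : 1 ≤ q)
  have h2 : (q : ℝ) ≤ (q : ℝ) ^ (1 + ε) := by
    calc (q : ℝ) = (q : ℝ) ^ (1 : ℝ) := (Real.rpow_one _).symm
      _ ≤ _ := Real.rpow_le_rpow_of_exponent_le hq1 (by linarith)
  calc ‖LL 1 q (1 / 2 + t * I)‖ ≤ G * (q * (1 + |t|)) := h1
    _ = G * q * (1 + |t|) ^ 1 := by ring
    _ ≤ G * (q : ℝ) ^ (1 + ε) * (1 + |t|) ^ 1 := by gcongr

lemma MB_mono {n : ℕ} {a b : ℝ} (hab : a ≤ b) (h : MB n a) : MB n b := by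
  intro ε hε
  obtain ⟨C, N, hC, hb⟩ := h ε hε
  refine ⟨C, N, hC, fun X t hX => (hb X t hX).trans ?_⟩
  have : X ^ (a + ε) ≤ X ^ (b + ε) := Real.rpow_le_rpow_of_exponent_le hX (by linarith)
  gcongr

lemma MB_gr {m : ℕ} {θ : ℝ} (hθ : 0 ≤ θ) (h : GrL θ) : MB (2 * m) (1 + 2 * m * θ) := by
  have := MB_add (r := 2 * m) hθ h MB_zero
  rw [Nat.zero_add] at this
  push_cast at this
  exact this

lemma set_eq {m : ℕ} (hm : 1 ≤ m) : {b : ℝ | 1 ≤ b ∧ Near (2 * m) b} = {b : ℝ | 1 ≤ b ∧ MB (2 * m) b} := by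
  ext b
  exact ⟨fun h => ⟨h.1, (Near_iff hm h.1).1 h.2⟩, fun h => ⟨h.1, (Near_iff hm h.1).2 h.2⟩⟩

lemma abs_spec {m : ℕ} (hm : 1 ≤ m) : 1 ≤ abscissa (2 * m) ∧ MB (2 * m) (abscissa (2 * m)) ∧
    ∀ b : ℝ, 1 ≤ b → MB (2 * m) b → abscissa (2 * m) ≤ b := by
  have hne : {b : ℝ | 1 ≤ b ∧ MB (2 * m) b}.Nonempty :=
    ⟨1 + 2 * m * 1, by have : (0 : ℝ) ≤ m := Nat.cast_nonneg m; linarith, MB_gr zero_le_one GrL_one⟩
  have hbd : BddBelow {b : ℝ | 1 ≤ b ∧ MB (2 * m) b} := ⟨1, fun b hb => hb.1⟩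
  unfold abscissa
  rw [set_eq hm]
  refine ⟨le_csInf hne fun b hb => hb.1, MB_lim fun ε hε => ?_, fun b h1 h2 => csInf_le hbd ⟨h1, h2⟩⟩
  obtain ⟨b, hb, hlt⟩ := exists_lt_of_csInf_lt hne (lt_add_of_pos_right _ hε)
  exact MB_mono hlt.le hb.2

lemma exp_spec : 0 ≤ exponent ∧ GrL exponent ∧ ∀ θ : ℝ, 0 ≤ θ → GrL θ → exponent ≤ θ := by
  have hs : {θ : ℝ | 0 ≤ θ ∧ Growth θ} = {θ : ℝ | 0 ≤ θ ∧ GrL θ} := by
    ext θ
    exact and_congr_right fun _ => Growth_iff θ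
  have hne : {θ : ℝ | 0 ≤ θ ∧ GrL θ}.Nonempty := ⟨1, zero_le_one, GrL_one⟩
  have hbd : BddBelow {θ : ℝ | 0 ≤ θ ∧ GrL θ} := ⟨0, fun b hb => hb.1⟩
  unfold exponent
  rw [hs]
  refine ⟨le_csInf hne fun b hb => hb.1, GrL_mono_lim fun η hη => ?_, fun b h1 h2 => csInf_le hbd ⟨h1, h2⟩⟩
  obtain ⟨b, hb, hlt⟩ := exists_lt_of_csInf_lt hne (lt_add_of_pos_right _ hη)
  exact ⟨b, hlt.le, hb.2⟩

/-- **The main result.** -/
theorem result :
    -- the infimum is attained; one number `k ≥ 2m` of variables, `M = 1` and points off the centre are enough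
    (∀ (m : ℕ) (b : ℝ), 1 ≤ m → 1 ≤ b → List.TFAE [
      abscissa (2 * m) ≤ b,
      ∀ k : ℕ, 1 ≤ k → k ≤ 2 * m → Near k b,
      ∃ k : ℕ, 2 * m ≤ k ∧ ∀ ε : ℝ, 0 < ε → Reaches k 1 (b + ε)]) ∧
    -- the abscissa is a convex function of the number of variables, with the value `1` for no variable
    (∀ l m n : ℕ, 1 ≤ l → l ≤ m → m ≤ n →
      ((n : ℝ) - l) * abscissa (2 * m) ≤ ((n : ℝ) - m) * abscissa (2 * l) + ((m : ℝ) - l) * abscissa (2 * n)) ∧
    (∀ m n : ℕ, 1 ≤ m → m ≤ n → (n : ℝ) * (abscissa (2 * m) - 1) ≤ m * (abscissa (2 * n) - 1)) ∧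
    -- more variables: the ratio does not increase
    (∀ m n : ℕ, 1 ≤ m → m ≤ n → (m : ℝ) * abscissa (2 * n) ≤ n * abscissa (2 * m)) ∧
    -- the exponent of growth is the slope of the abscissa
    (∀ m : ℕ, 1 ≤ m → 1 ≤ abscissa (2 * m) ∧ 2 * m * exponent ≤ abscissa (2 * m) ∧
      abscissa (2 * m) ≤ 1 + 2 * m * exponent) ∧
    Tendsto (fun m : ℕ => abscissa (2 * m) / (2 * m)) atTop (𝓝 exponent) ∧
    -- the infimum in the definition of the exponent is attained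
    0 ≤ exponent ∧ Growth exponent ∧
    -- Q1 gives the value `1`
    ((∀ k M : ℕ, 1 ≤ k → 1 ≤ M → ContinuesTo k M (center k)) → ∀ k : ℕ, 1 ≤ k → abscissa k = 1) := by
  obtain ⟨he0, heG, hemin⟩ := exp_spec
  have hsand : ∀ m : ℕ, 1 ≤ m → 1 ≤ abscissa (2 * m) ∧ 2 * m * exponent ≤ abscissa (2 * m) ∧
      abscissa (2 * m) ≤ 1 + 2 * m * exponent := by
    intro m hm
    obtain ⟨h1, h2, h3⟩ := abs_spec hm
    have hm0 : (0 : ℝ) < m := by exact_mod_cast hm
    refine ⟨h1, ?_, h3 _ (by nlinarith [mul_nonneg hm0.le he0]) (MB_gr he0 heG)⟩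
    have h4 := GrL_of_MB (n := 2 * m) (by omega) (by linarith) h2
    have h5 := hemin _ (by positivity) h4
    rw [le_div_iff₀ (by positivity)] at h5
    push_cast at h5
    linarith
  refine ⟨fun m b hm hb => ?_, fun l m n hl hlm hmn => ?_, fun m n hm hmn => ?_, fun m n hm hmn => ?_, hsand, ?_,
    he0, (Growth_iff _).2 heG, fun hQ k hk => ?_⟩
  · obtain ⟨h1, h2, h3⟩ := abs_spec hm
    tfae_have 1 → 2 := fun h k hk1 hk => Near_of_MB hm hk1 hk hb (MB_mono h h2)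
    tfae_have 2 → 3 := by
      intro h
      exact (reach_MB hm hb).1 ((Near_iff hm hb).1 (h (2 * m) (by omega) le_rfl))
    tfae_have 3 → 1 := fun h => h3 b hb ((reach_MB hm hb).2 h)
    tfae_finish
  · obtain ⟨h1, h2, -⟩ := abs_spec hl
    obtain ⟨-, -, h3⟩ := abs_spec (hl.trans hlm)
    obtain ⟨h4, h5, -⟩ := abs_spec (hl.trans (hlm.trans hmn))
    have hlR : (l : ℝ) ≤ m := by exact_mod_cast hlm
    have hnR : (m : ℝ) ≤ n := by exact_mod_cast hmn
    rcases Nat.lt_or_ge l n with h | h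
    · have hln : (0 : ℝ) < n - l := by
        have : (l : ℝ) < n := by exact_mod_cast h
        linarith
      have h6 := h3 _ (by
        rw [le_div_iff₀ hln]
        nlinarith) (MB_ip hlm hmn h h2 h5)
      rw [le_div_iff₀ hln] at h6
      linarith
    · have e1 : l = m := by omega
      have e2 : m = n := by omega
      subst e1
      subst e2
      simp
  · obtain ⟨-, -, h3⟩ := abs_spec hm
    obtain ⟨h4, h5, -⟩ := abs_spec (hm.trans hmn)
    have hm0 : (0 : ℝ) < m := by exact_mod_cast hm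
    have hnR : (m : ℝ) ≤ n := by exact_mod_cast hmn
    have hn0 : (0 : ℝ) < n := by linarith
    have h6 := MB_ip (l := 0) (b := 1) (Nat.zero_le m) hmn (by omega) (by simpa using MB_zero) h5
    have h7 := h3 _ (by
      rw [Nat.cast_zero, sub_zero, sub_zero, le_div_iff₀ hn0]
      nlinarith) h6
    rw [Nat.cast_zero, sub_zero, sub_zero, le_div_iff₀ hn0] at h7
    linarith
  · obtain ⟨h1, h2, -⟩ := abs_spec hm
    obtain ⟨-, -, h3⟩ := abs_spec (hm.trans hmn)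
    have hm0 : (0 : ℝ) < m := by exact_mod_cast hm
    have hnR : (m : ℝ) ≤ n := by exact_mod_cast hmn
    have h4 := GrL_of_MB (n := 2 * m) (by omega) (by linarith) h2
    have h5 := MB_add (r := 2 * n - 2 * m) (by positivity) h4 h2
    rw [show 2 * m + (2 * n - 2 * m) = 2 * n by omega] at h5
    have e : abscissa (2 * m) + ((2 * n - 2 * m : ℕ) : ℝ) * (abscissa (2 * m) / ((2 * m : ℕ) : ℝ)) =
        n * abscissa (2 * m) / m := by
      rw [Nat.cast_sub (by omega)]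
      push_cast
      field_simp
      ring
    rw [e] at h5
    have h6 := h3 _ (by
      rw [le_div_iff₀ hm0]
      nlinarith) h5
    rw [le_div_iff₀ hm0] at h6
    linarith
  · have h0 : Tendsto (fun m : ℕ => exponent + 1 / 2 * ((m : ℝ))⁻¹) atTop (𝓝 (exponent + 1 / 2 * 0)) :=
      (tendsto_inv_atTop_nhds_zero_nat.const_mul (1 / 2)).const_add exponent
    rw [mul_zero, add_zero] at h0
    refine tendsto_of_tendsto_of_tendsto_of_le_of_le' tendsto_const_nhds h0 ?_ ?_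
    · filter_upwards [eventually_ge_atTop 1] with m hm
      have hm0 : (0 : ℝ) < m := by exact_mod_cast hm
      rw [le_div_iff₀ (by positivity)]
      linarith [(hsand m hm).2.1]
    · filter_upwards [eventually_ge_atTop 1] with m hm
      have hm0 : (0 : ℝ) < m := by exact_mod_cast hm
      rw [div_le_iff₀ (by positivity)]
      have e : (exponent + 1 / 2 * (m : ℝ)⁻¹) * (2 * m) = 1 + 2 * m * exponent := by
        field_simp
        ring
      rw [e]
      exact (hsand m hm).2.2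
  · have hmem : (1 : ℝ) ∈ {b : ℝ | 1 ≤ b ∧ Near k b} := by
      refine ⟨le_rfl, fun M hM ε hε => (hQ k M hk hM).up fun i => ?_⟩
      refine Fin.cases ?_ (fun j => ?_) i
      · exact le_rfl
      · show (1 / 2 : ℝ) ≤ 1 / 2 + ε
        linarith
    unfold abscissa
    exact le_antisymm (csInf_le ⟨1, fun b hb => hb.1⟩ hmem) (le_csInf ⟨1, hmem⟩ fun b hb => hb.1)

end

end Pool.Agent.Results.MP_fed7ff_nt.NumberOfVariables
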